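import Pool.Agent.Helper15_SIQ.Stmts
import Pool.Agent.Helper18_SIU.WDG

/-! SIQ, module INV (helper59): invariance of the pairing. -/

set_option autoImplicit false

open MeasureTheory Filter Topology

namespace Pool.Agent.SIQ.H59

open Pool.Agent.SIU Pool.Agent.SIQ

theorem rot3_one : rot3 (fun _ => 1) = ContinuousLinearMap.id ℂ C3 := by
  ext c i
  simp [rot3_apply]

theorem rot3_const (u : ℂ) (v : C3) : rot3 (fun _ => u) v = mulC 3 u v := by
  funext i
  simp [rot3_apply, mulC]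

theorem inc1_mulC (u : ℂ) : (mulC 6 u).comp (inc1.restrictScalars ℝ) =
    (inc1.restrictScalars ℝ).comp (mulC 3 u) := by
  ext v m
  simp [mulC]

theorem pull_rotF {k : ℕ} (u : ℂ) (a : E6 → Alt 6 k) (x : C3) :
    Toric.pull X1.σ (rotF u a) x = (Toric.pull X1.σ a x).compContinuousLinearMap (mulC 3 u) := by
  rw [pull_sigma1, pull_sigma1]
  ext v
  have h : ∀ w, mulC 6 u (inc1 w) = inc1 (mulC 3 u w) := fun w =>
    DFunLike.congr_fun (inc1_mulC u) w
  show a (X1.σ x) (fun i => mulC 6 u (inc1 (v i))) = a (X1.σ x) (fun i => inc1 (mulC 3 u (v i)))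
  simp only [h]

theorem nz_decomp {g : E6} (hg : g ∈ X1.U) :
    g = X1.act (fun i => ((√(nn g i) : ℝ) : ℂ)) (nz g) := by
  unfold nz
  rw [act1_act]
  have : (fun i => ((√(nn g i) : ℝ) : ℂ) * (((√(nn g i))⁻¹ : ℝ) : ℂ)) = fun _ => (1 : ℂ) := by
    funext i
    have h := (mem_U1' g).mp hg i
    have h2 : √(nn g i) ≠ 0 := (Real.sqrt_pos.mpr h).ne'
    rw [← Complex.ofReal_mul, mul_inv_cancel₀ h2, Complex.ofReal_one]
  rw [this, act1_one]

theorem cmp_pos {k : ℕ} {a : E6 → Alt 6 k} (ha : Eqv (cmp a)) {t : Fin 3 → ℝ}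
    (ht : ∀ i, 0 < t i) {z : E6} (hz : z ∈ X1.U) :
    cmp a (X1.act (fun i => (t i : ℂ)) z) = cmp a z := by
  have h0 : ∀ i, ((t i : ℝ) : ℂ) ≠ 0 := fun i => by exact_mod_cast (ht i).ne'
  rw [ha z hz _ h0]
  have h1 : (fun j => (starRingEnd ℂ) ((t j : ℝ) : ℂ) / ((t j : ℝ) : ℂ)) = fun _ => (1 : ℂ) := by
    funext j
    rw [Complex.conj_ofReal, div_self (h0 j)]
  rw [h1, rot3_one]
  ext v
  rfl

theorem inv (_hfrm : FrmStmt) (hcpt : CptStmt) (hqua : QuaStmt) (hqum : QumStmt) (hcom : ComStmt)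
    (hprf : PrfStmt) (hgsf : GsfStmt) : InvStmt := by
  intro k l hkl a b hca hba hcb hbb
  obtain ⟨qn, qU, qmul, -, -, -, -, -, -, qact, -⟩ := hqua
  obtain ⟨-, mp, -, -, -, hU0, -⟩ := hqum
  have hea : Eqv (cmp a) := (hcpt.1 k a hba).1
  have heb : Eqv (cmp b) := (hcpt.1 l b hbb).1
  have hcg := hcpt.2.2.2.2.1
  have hprw : ∀ (g z : E6), prw (gs g a) (gs g b) z = prw a b (qm g z) := by
    intro g z
    unfold prw
    rw [hcg k g a z, hcg l g b z]
  have hprw2 : ∀ (t : Fin 3 → ℝ), (∀ i, 0 < t i) → ∀ z ∈ X1.U,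
      prw a b (X1.act (fun i => (t i : ℂ)) z) = prw a b z := by
    intro t ht z hz
    unfold prw
    rw [cmp_pos hea ht hz, cmp_pos heb ht hz]
  have hP := hprf k l hkl a b hca hba hcb hbb
  have haeU : ∀ᵐ z : E6, z ∈ X1.U := by
    rw [ae_iff]
    exact hU0
  refine ⟨?_, ?_, ?_⟩
  · intro g hg
    have hG := hgsf g hg
    have hP' := hprf k l hkl (gs g a) (gs g b) (hG.1 k a hca) (hG.2.1 k a hba) (hG.1 l b hcb)
      (hG.2.1 l b hbb)
    rw [hP.2.2, hP'.2.2]
    congr 1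
    have hM := nz_mem hg
    have h1 : ∫ z, Real.exp (-∑ i, nn z i) * prw (gs g a) (gs g b) z =
        ∫ z, (fun w => Real.exp (-∑ i, nn w i) * prw a b w) (qm (nz g) z) := by
      refine integral_congr_ae ?_
      filter_upwards [haeU] with z hz
      rw [hprw]
      have e1 : qm g z = X1.act (fun i => ((√(nn g i) : ℝ) : ℂ)) (qm (nz g) z) := by
        conv_lhs => rw [nz_decomp hg]
        exact qact (fun i => √(nn g i)) (nz g) z
      have e2 : qm (nz g) z ∈ X1.U := (qU _ _).mpr ⟨M1_subset hM, hz⟩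
      rw [e1, hprw2 (fun i => √(nn g i))
        (fun i => Real.sqrt_pos.mpr ((mem_U1' g).mp hg i)) _ e2]
      have e3 : ∀ i, nn (qm (nz g) z) i = nn z i := by
        intro i
        rw [qn, hM i, one_mul]
      simp only [e3]
    rw [h1]
    have hmp := mp (nz g) hM
    have h2 := integral_map (μ := (volume : Measure E6)) hmp.measurable.aemeasurable
      (f := fun w => Real.exp (-∑ i, nn w i) * prw a b w)
      (by rw [hmp.map_eq]; exact hP.2.1.aestronglyMeasurable)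
    rw [hmp.map_eq] at h2
    exact h2.symm
  · intro u hu
    unfold Toric.pair
    congr 1
    funext x
    rw [pull_rotF, pull_rotF]
    have hw := (H18.wdg 3 k l).2.2.2.1 3 (mulC 3 u) (Toric.pull X1.σ a x) (Toric.pull X1.σ b x)
    rw [← hw]
    have hc := (hcom k l hkl).2.2 (fun _ => u)
      (wedge (Toric.pull X1.σ a x) (Toric.pull X1.σ b x))
    have h1 : (∏ _j : Fin 3, ‖u‖ ^ 2) = 1 := by rw [hu]; simp
    rw [h1, one_mul] at hc
    rw [← hc]
    have h2 : (fun i => rot3 (fun _ => u) (stdb 3 (k + l) i)) =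
        fun i => mulC 3 u (stdb 3 (k + l) i) := by
      funext i
      exact rot3_const u _
    rw [h2]
    rfl
  · unfold Toric.pair
    rw [← integral_const_mul]
    congr 1
    funext x
    exact (hcom k l hkl).1 _ _

end Pool.Agent.SIQ.H59
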