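import Pool.Agent.Helper15_SIQ.Stmts
import Pool.Agent.Helper18_SIU.WDG
import Pool.Agent.Helper50_SIU.Lnk

/-! SIQ, module LEI (helper59): the Leibniz rule for the exterior derivative. -/

set_option autoImplicit false

open MeasureTheory Filter Topology

namespace Pool.Agent.SIQ.H59L

open Pool.Agent.SIU Pool.Agent.SIQ
open Pool.Agent.SIU.H50 (sg sg_mul sg_sq alt_perm ext0 ext0_zero ext0_succ sg_ext0)

variable {N : ℕ}

/-- full antisymmetrisation -/
noncomputable def fs (m : ℕ) (v : ℕ → Fin N → ℂ) (f : (Fin m → Fin N → ℂ) → ℝ) : ℝ :=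
  ∑ σ : Equiv.Perm (Fin m), sg σ * f (fun i => v (σ i))

theorem fs_cast {m m' : ℕ} (h : m = m') (v : ℕ → Fin N → ℂ) (f : (Fin m → Fin N → ℂ) → ℝ) :
    fs m v f = fs m' v (fun w => f (fun i => w (Fin.cast h i))) := by
  subst h
  rfl

theorem fs_perm {m : ℕ} (τ : Equiv.Perm (Fin m)) (v : ℕ → Fin N → ℂ)
    (f : (Fin m → Fin N → ℂ) → ℝ) :
    fs m v (fun w => f (fun i => w (τ i))) = sg τ * fs m v f := by
  unfold fs
  rw [← Equiv.sum_comp (Equiv.mulRight τ) (fun σ : Equiv.Perm (Fin m) =>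
    sg σ * f (fun i => v (σ i))), Finset.mul_sum]
  refine Finset.sum_congr rfl fun σ _ => ?_
  simp only [Equiv.coe_mulRight, sg_mul, Equiv.Perm.mul_apply]
  have := sg_sq τ
  linear_combination (-(sg σ) * f (fun i => v (σ (τ i)))) * this

theorem fs_sum {m : ℕ} {ι : Type} (s : Finset ι) (v : ℕ → Fin N → ℂ) (c : ι → ℝ)
    (f : ι → (Fin m → Fin N → ℂ) → ℝ) :
    fs m v (fun w => ∑ i ∈ s, c i * f i w) = ∑ i ∈ s, c i * fs m v (f i) := by
  unfold fs
  simp only [Finset.mul_sum]
  rw [Finset.sum_comm]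
  refine Finset.sum_congr rfl fun i _ => Finset.sum_congr rfl fun σ _ => ?_
  ring

theorem sg_cyc {n : ℕ} (i : Fin (n + 1)) : sg (i.cycleRange.symm) = (-1) ^ (i : ℕ) := by
  simp [sg, Equiv.Perm.sign_symm]

theorem ext0_inj {n : ℕ} {ρ ρ' : Equiv.Perm (Fin n)} (h : ext0 ρ = ext0 ρ') : ρ = ρ' := by
  have h1 := Equiv.Perm.decomposeFin.symm.injective h
  exact (Prod.ext_iff.mp h1).2

theorem sum_perm_succ (n : ℕ) (F : Equiv.Perm (Fin (n + 1)) → ℝ) :
    ∑ σ, F σ = ∑ i : Fin (n + 1), ∑ ρ : Equiv.Perm (Fin n), F (i.cycleRange.symm * ext0 ρ) := by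
  rw [← Fintype.sum_prod_type']
  have hb : Function.Bijective (fun p : Fin (n + 1) × Equiv.Perm (Fin n) =>
      (p.1.cycleRange.symm * ext0 p.2 : Equiv.Perm (Fin (n + 1)))) := by
    rw [Fintype.bijective_iff_injective_and_card]
    refine ⟨?_, ?_⟩
    · rintro ⟨i, ρ⟩ ⟨i', ρ'⟩ h
      have h0 : i.cycleRange.symm * ext0 ρ = i'.cycleRange.symm * ext0 ρ' := h
      have h1 : i = i' := by
        have h2 := DFunLike.congr_fun h0 0
        rw [Equiv.Perm.mul_apply, Equiv.Perm.mul_apply, ext0_zero, ext0_zero,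
          Fin.cycleRange_symm_zero, Fin.cycleRange_symm_zero] at h2
        exact h2
      subst h1
      have h3 := mul_left_cancel h0
      rw [ext0_inj h3]
    · rw [Fintype.card_prod, Fintype.card_perm, Fintype.card_perm, Fintype.card_fin,
        Fintype.card_fin, Nat.factorial_succ]
  exact (hb.sum_comp (fun σ => F σ)).symm

theorem fs_succ (n : ℕ) (v : ℕ → Fin N → ℂ) (Φ : (Fin N → ℂ) → (Fin n → Fin N → ℂ) → ℝ) :
    fs (n + 1) v (fun w => Φ (w 0) (fun j => w j.succ)) =
      ∑ i : Fin (n + 1), (-1) ^ (i : ℕ) * ∑ ρ : Equiv.Perm (Fin n),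
        sg ρ * Φ (v i) (fun j => v (i.succAbove (ρ j))) := by
  unfold fs
  rw [sum_perm_succ]
  refine Finset.sum_congr rfl fun i _ => ?_
  rw [Finset.mul_sum]
  refine Finset.sum_congr rfl fun ρ _ => ?_
  rw [sg_mul, sg_cyc, sg_ext0]
  simp only [Equiv.Perm.mul_apply, ext0_zero, ext0_succ, Fin.cycleRange_symm_zero,
    Fin.cycleRange_symm_succ]
  ring

/-- permutations of the two blocks -/
noncomputable def blkp {m n : ℕ} (e : Equiv.Perm (Fin m)) (e' : Equiv.Perm (Fin n)) :
    Equiv.Perm (Fin (m + n)) := finSumFinEquiv.permCongr (Equiv.Perm.sumCongr e e')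

theorem blkp_castAdd {m n : ℕ} (e : Equiv.Perm (Fin m)) (e' : Equiv.Perm (Fin n)) (j : Fin m) :
    blkp e e' (Fin.castAdd n j) = Fin.castAdd n (e j) := by
  unfold blkp
  rw [Equiv.permCongr_apply]
  simp

theorem blkp_natAdd {m n : ℕ} (e : Equiv.Perm (Fin m)) (e' : Equiv.Perm (Fin n)) (j : Fin n) :
    blkp e e' (Fin.natAdd m j) = Fin.natAdd m (e' j) := by
  unfold blkp
  rw [Equiv.permCongr_apply]
  simp

theorem sg_blkp {m n : ℕ} (e : Equiv.Perm (Fin m)) (e' : Equiv.Perm (Fin n)) :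
    sg (blkp e e') = sg e * sg e' := by
  unfold blkp sg
  rw [Equiv.Perm.sign_permCongr, Equiv.Perm.sign_sumCongr]
  push_cast
  rfl

/-- `∑ (-1)^i A(v_i)(v without i)` -/
theorem alt_apply {n : ℕ} (A : (Fin N → ℂ) →L[ℝ] Alt N n) (w : Fin (n + 1) → Fin N → ℂ) :
    ContinuousAlternatingMap.alternatizeUncurryFin A w =
      ∑ i : Fin (n + 1), (-1) ^ (i : ℕ) * A (w i) (fun j => w (i.succAbove j)) := by
  rw [ContinuousAlternatingMap.alternatizeUncurryFin_apply]
  refine Finset.sum_congr rfl fun i _ => ?_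
  rw [zsmul_eq_mul]
  push_cast
  rfl

theorem wedge_fs {k l : ℕ} (a : Alt N k) (b : Alt N l) (v : ℕ → Fin N → ℂ) :
    wedge a b (fun i => v i) = ((k.factorial * l.factorial : ℕ) : ℝ)⁻¹ *
      fs (k + l) v (fun w => a (fun i => w (Fin.castAdd l i)) * b (fun j => w (Fin.natAdd k j))) :=
  H18.wedge_apply a b _

/-- the left factor -/
theorem left_factor {k l : ℕ} (A : (Fin N → ℂ) →L[ℝ] Alt N k) (b : Alt N l)
    (v : ℕ → Fin N → ℂ) :
    wedge (ContinuousAlternatingMap.alternatizeUncurryFin A) b (fun i => v i) =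
      ∑ i : Fin (k + l + 1), (-1) ^ (i : ℕ) * wedge (A (v i)) b (fun j => v (i.succAbove j)) := by
  have hR : ∑ i : Fin (k + l + 1), (-1) ^ (i : ℕ) *
      wedge (A (v i)) b (fun j => v (i.succAbove j)) =
      ((k.factorial * l.factorial : ℕ) : ℝ)⁻¹ * fs (k + l + 1) v (fun w =>
        A (w 0) (fun j => w (Fin.castAdd l j).succ) * b (fun j => w (Fin.natAdd k j).succ)) := by
    rw [fs_succ (k + l) v (fun x u => A x (fun j => u (Fin.castAdd l j)) *
      b (fun j => u (Fin.natAdd k j))), Finset.mul_sum]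
    refine Finset.sum_congr rfl fun i _ => ?_
    rw [H18.wedge_apply]
    show _ * (_ * ∑ ρ : Equiv.Perm (Fin (k + l)), sg ρ * _) = _
    ring
  have hL : wedge (ContinuousAlternatingMap.alternatizeUncurryFin A) b (fun i => v i) =
      (((k + 1).factorial * l.factorial : ℕ) : ℝ)⁻¹ * ((k + 1 : ℕ) * fs (k + 1 + l) v (fun w =>
        A (w (Fin.castAdd l 0)) (fun j => w (Fin.castAdd l j.succ)) *
          b (fun j => w (Fin.natAdd (k + 1) j)))) := by
    rw [wedge_fs]
    congr 1
    have h1 : (fun w : Fin (k + 1 + l) → Fin N → ℂ =>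
        ContinuousAlternatingMap.alternatizeUncurryFin A (fun i => w (Fin.castAdd l i)) *
          b (fun j => w (Fin.natAdd (k + 1) j))) = fun w => ∑ i : Fin (k + 1), (-1) ^ (i : ℕ) *
        (A (w (Fin.castAdd l i)) (fun j => w (Fin.castAdd l (i.succAbove j))) *
          b (fun j => w (Fin.natAdd (k + 1) j))) := by
      funext w
      rw [alt_apply, Finset.sum_mul]
      exact Finset.sum_congr rfl fun i _ => by ring
    rw [h1, fs_sum]
    have h2 : ∀ i : Fin (k + 1), (-1) ^ (i : ℕ) * fs (k + 1 + l) v (fun w =>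
        A (w (Fin.castAdd l i)) (fun j => w (Fin.castAdd l (i.succAbove j))) *
          b (fun j => w (Fin.natAdd (k + 1) j))) = fs (k + 1 + l) v (fun w =>
        A (w (Fin.castAdd l 0)) (fun j => w (Fin.castAdd l j.succ)) *
          b (fun j => w (Fin.natAdd (k + 1) j))) := by
      intro i
      have h3 := fs_perm (blkp i.cycleRange.symm (1 : Equiv.Perm (Fin l))) v (fun w =>
        A (w (Fin.castAdd l 0)) (fun j => w (Fin.castAdd l j.succ)) *
          b (fun j => w (Fin.natAdd (k + 1) j)))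
      simp only [blkp_castAdd, blkp_natAdd, Fin.cycleRange_symm_zero, Fin.cycleRange_symm_succ,
        Equiv.Perm.coe_one, id_eq] at h3
      rw [h3, sg_blkp, sg_cyc]
      have h4 : sg (1 : Equiv.Perm (Fin l)) = 1 := by simp [sg]
      rw [h4, mul_one, ← mul_assoc, ← pow_add, ← two_mul, pow_mul]
      norm_num
    rw [Finset.sum_congr rfl fun i _ => h2 i, Finset.sum_const, Finset.card_univ,
      Fintype.card_fin, nsmul_eq_mul]
  rw [hL, hR, fs_cast (show k + 1 + l = k + l + 1 by omega)]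
  have e1 : Fin.cast (show k + 1 + l = k + l + 1 by omega) (Fin.castAdd l 0) = 0 := by
    ext; simp
  have e2 : ∀ j : Fin k, Fin.cast (show k + 1 + l = k + l + 1 by omega)
      (Fin.castAdd l j.succ) = (Fin.castAdd l j).succ := by
    intro j; ext; simp
  have e3 : ∀ j : Fin l, Fin.cast (show k + 1 + l = k + l + 1 by omega)
      (Fin.natAdd (k + 1) j) = (Fin.natAdd k j).succ := by
    intro j; ext; simp; omega
  simp only [e1, e2, e3]
  rw [Nat.factorial_succ]
  push_cast
  have hk : ((k : ℝ) + 1) ≠ 0 := by positivity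
  have hk2 : (k.factorial : ℝ) ≠ 0 := by positivity
  have hl2 : (l.factorial : ℝ) ≠ 0 := by positivity
  field_simp

/-- the right factor -/
theorem right_factor {k l : ℕ} (a : Alt N k) (B : (Fin N → ℂ) →L[ℝ] Alt N l)
    (v : ℕ → Fin N → ℂ) :
    (-1) ^ k * wedge a (ContinuousAlternatingMap.alternatizeUncurryFin B) (fun i => v i) =
      ∑ i : Fin (k + l + 1), (-1) ^ (i : ℕ) * wedge a (B (v i)) (fun j => v (i.succAbove j)) := by
  have hR : ∑ i : Fin (k + l + 1), (-1) ^ (i : ℕ) *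
      wedge a (B (v i)) (fun j => v (i.succAbove j)) =
      ((k.factorial * l.factorial : ℕ) : ℝ)⁻¹ * fs (k + l + 1) v (fun w =>
        a (fun j => w (Fin.castAdd l j).succ) * B (w 0) (fun j => w (Fin.natAdd k j).succ)) := by
    rw [fs_succ (k + l) v (fun x u => a (fun j => u (Fin.castAdd l j)) *
      B x (fun j => u (Fin.natAdd k j))), Finset.mul_sum]
    refine Finset.sum_congr rfl fun i _ => ?_
    rw [H18.wedge_apply]
    show _ * (_ * ∑ ρ : Equiv.Perm (Fin (k + l)), sg ρ * _) = _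
    ring
  have hL : wedge a (ContinuousAlternatingMap.alternatizeUncurryFin B) (fun i => v i) =
      ((k.factorial * (l + 1).factorial : ℕ) : ℝ)⁻¹ * ((l + 1 : ℕ) * fs (k + (l + 1)) v (fun w =>
        a (fun j => w (Fin.castAdd (l + 1) j)) *
          B (w (Fin.natAdd k 0)) (fun j => w (Fin.natAdd k j.succ)))) := by
    rw [wedge_fs]
    congr 1
    have h1 : (fun w : Fin (k + (l + 1)) → Fin N → ℂ =>
        a (fun i => w (Fin.castAdd (l + 1) i)) *
        ContinuousAlternatingMap.alternatizeUncurryFin B (fun j => w (Fin.natAdd k j))) =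
        fun w => ∑ i : Fin (l + 1), (-1) ^ (i : ℕ) * (a (fun i => w (Fin.castAdd (l + 1) i)) *
          B (w (Fin.natAdd k i)) (fun j => w (Fin.natAdd k (i.succAbove j)))) := by
      funext w
      rw [alt_apply, Finset.mul_sum]
      exact Finset.sum_congr rfl fun i _ => by ring
    rw [h1, fs_sum]
    have h2 : ∀ i : Fin (l + 1), (-1) ^ (i : ℕ) * fs (k + (l + 1)) v (fun w =>
        a (fun i => w (Fin.castAdd (l + 1) i)) *
          B (w (Fin.natAdd k i)) (fun j => w (Fin.natAdd k (i.succAbove j)))) =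
        fs (k + (l + 1)) v (fun w => a (fun j => w (Fin.castAdd (l + 1) j)) *
          B (w (Fin.natAdd k 0)) (fun j => w (Fin.natAdd k j.succ))) := by
      intro i
      have h3 := fs_perm (blkp (1 : Equiv.Perm (Fin k)) i.cycleRange.symm) v (fun w =>
        a (fun j => w (Fin.castAdd (l + 1) j)) *
          B (w (Fin.natAdd k 0)) (fun j => w (Fin.natAdd k j.succ)))
      simp only [blkp_castAdd, blkp_natAdd, Fin.cycleRange_symm_zero, Fin.cycleRange_symm_succ,
        Equiv.Perm.coe_one, id_eq] at h3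
      rw [h3, sg_blkp, sg_cyc]
      have h4 : sg (1 : Equiv.Perm (Fin k)) = 1 := by simp [sg]
      rw [h4, one_mul, ← mul_assoc, ← pow_add, ← two_mul, pow_mul]
      norm_num
    rw [Finset.sum_congr rfl fun i _ => h2 i, Finset.sum_const, Finset.card_univ,
      Fintype.card_fin, nsmul_eq_mul]
  -- move the position `k` to the position `0`
  set i0 : Fin (k + l + 1) := ⟨k, by omega⟩ with hi0
  have hmove := fs_perm i0.cycleRange.symm v (fun w : Fin (k + l + 1) → Fin N → ℂ =>
    a (fun j => w (Fin.castAdd l j).succ) * B (w 0) (fun j => w (Fin.natAdd k j).succ))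
  simp only [Fin.cycleRange_symm_zero, Fin.cycleRange_symm_succ] at hmove
  rw [sg_cyc] at hmove
  rw [hL, hR]
  have hc := fs_cast (show k + (l + 1) = k + l + 1 by omega) v (fun w =>
        a (fun j => w (Fin.castAdd (l + 1) j)) *
          B (w (Fin.natAdd k 0)) (fun j => w (Fin.natAdd k j.succ)))
  have e1 : Fin.cast (show k + (l + 1) = k + l + 1 by omega) (Fin.natAdd k 0) = i0 := by
    ext; simp [hi0]
  have e2 : ∀ j : Fin k, Fin.cast (show k + (l + 1) = k + l + 1 by omega)
      (Fin.castAdd (l + 1) j) = i0.succAbove (Fin.castAdd l j) := by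
    intro j
    rw [Fin.succAbove_of_castSucc_lt]
    · ext; simp
    · rw [Fin.lt_def]; simp [hi0]
  have e3 : ∀ j : Fin l, Fin.cast (show k + (l + 1) = k + l + 1 by omega)
      (Fin.natAdd k j.succ) = i0.succAbove (Fin.natAdd k j) := by
    intro j
    rw [Fin.succAbove_of_le_castSucc]
    · ext; simp; omega
    · rw [Fin.le_def]; simp [hi0]
  simp only [e1, e2, e3] at hc
  rw [hc, hmove]
  have hi0v : ((i0 : Fin (k + l + 1)) : ℕ) = k := rfl
  rw [hi0v, Nat.factorial_succ]
  push_cast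
  have hk2 : (k.factorial : ℝ) ≠ 0 := by positivity
  have hl : ((l : ℝ) + 1) ≠ 0 := by positivity
  have hl2 : (l.factorial : ℝ) ≠ 0 := by positivity
  have hs : ((-1 : ℝ) ^ k) * ((-1 : ℝ) ^ k) = 1 := by
    rw [← pow_add, ← two_mul, pow_mul]; norm_num
  field_simp
  linear_combination (fs (k + l + 1) v (fun w =>
        a (fun j => w (Fin.castAdd l j).succ) * B (w 0) (fun j => w (Fin.natAdd k j).succ))) * hs

/-- derivative of a bounded bilinear expression, applied form -/
theorem gen {X E F G : Type*} [NormedAddCommGroup X] [NormedSpace ℝ X] [NormedAddCommGroup E]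
    [NormedSpace ℝ E] [NormedAddCommGroup F] [NormedSpace ℝ F] [NormedAddCommGroup G]
    [NormedSpace ℝ G] {f : E × F → G} (h : IsBoundedBilinearMap ℝ f) (a : X → E) (b : X → F)
    (z : X) (ha : DifferentiableAt ℝ a z) (hb : DifferentiableAt ℝ b z) (x : X) :
    fderiv ℝ (fun w => f (a w, b w)) z x =
      f (a z, fderiv ℝ b z x) + f (fderiv ℝ a z x, b z) := by
  have hab : HasFDerivAt (fun w => (a w, b w)) ((fderiv ℝ a z).prod (fderiv ℝ b z)) z :=
    ha.hasFDerivAt.prodMk hb.hasFDerivAt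
  have h0 := (h.hasFDerivAt (a z, b z)).comp z hab
  have h1 := h0.fderiv
  have h2 : (f ∘ fun w => (a w, b w)) = fun w => f (a w, b w) := rfl
  rw [h2] at h1
  rw [h1, ContinuousLinearMap.comp_apply, IsBoundedBilinearMap.deriv_apply]
  rfl

theorem hd (k l : ℕ) (a : (Fin N → ℂ) → Alt N k) (b : (Fin N → ℂ) → Alt N l) (z : Fin N → ℂ)
    (ha : DifferentiableAt ℝ a z) (hb : DifferentiableAt ℝ b z) (x : Fin N → ℂ) :
    fderiv ℝ (fun w => wedge (a w) (b w)) z x =
      wedge (a z) (fderiv ℝ b z x) + wedge (fderiv ℝ a z x) (b z) :=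
  gen H18.wedge_bilin a b z ha hb x

/-- module LEI -/
theorem lei : LeiStmt := by
  intro N k l a b z ha hb v
  have h1 := hd k l a b z ha hb
  have hE : extDeriv (fun w => wedge (a w) (b w)) z (fun i => v i) =
      ∑ i : Fin (k + l + 1), (-1) ^ (i : ℕ) *
        (fderiv ℝ (fun w => wedge (a w) (b w)) z (v i)) (fun j => v (i.succAbove j)) :=
    alt_apply (fderiv ℝ (fun w => wedge (a w) (b w)) z) (fun i => v i)
  have hE2 : ∑ i : Fin (k + l + 1), (-1) ^ (i : ℕ) *
        (fderiv ℝ (fun w => wedge (a w) (b w)) z (v i)) (fun j => v (i.succAbove j)) =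
      ∑ i : Fin (k + l + 1), ((-1) ^ (i : ℕ) * wedge (a z) (fderiv ℝ b z (v i))
        (fun j => v (i.succAbove j)) + (-1) ^ (i : ℕ) * wedge (fderiv ℝ a z (v i)) (b z)
        (fun j => v (i.succAbove j))) := by
    refine Finset.sum_congr rfl fun i _ => ?_
    rw [h1, ContinuousAlternatingMap.add_apply, mul_add]
  have hL := left_factor (fderiv ℝ a z) (b z) v
  have hR := right_factor (a z) (fderiv ℝ b z) v
  rw [hE, hE2, Finset.sum_add_distrib, ← hL, ← hR]
  exact add_comm _ _

end Pool.Agent.SIQ.H59L
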