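import Pool.Agent.Helper15_SIQ.Stmts
import Pool.Agent.Helper18_SIQ.Eqv
import Pool.Agent.Helper15_SIU.W

/-! SIQ, module PPA (helper59): positivity is tested on strongly positive forms. -/

set_option autoImplicit false

open MeasureTheory Filter Topology

namespace Pool.Agent.SIQ.H59P

open Pool.Agent.SIU Pool.Agent.SIQ

/-! ### rotation of complex tuples -/

theorem pair_rot {N n : ℕ} (g : Alt N n) (v : Fin n → Fin N → ℂ) (i j : Fin n) (hij : i ≠ j)
    (x y : Fin N → ℂ) (a b : ℝ) :
    g (Function.update (Function.update v i (a • x + b • y)) j (a • y - b • x)) =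
      (a ^ 2 + b ^ 2) * g (Function.update (Function.update v i x) j y) := by
  obtain ⟨F, hF⟩ : ∃ F : (Fin N → ℂ) → (Fin N → ℂ) → ℝ,
      ∀ x y, F x y = g (Function.update (Function.update v i x) j y) := ⟨_, fun _ _ => rfl⟩
  have h1 : ∀ x y z, F x (y + z) = F x y + F x z := by
    intro x y z
    rw [hF, hF, hF, g.map_update_add]
  have h2 : ∀ (t : ℝ) x y, F x (t • y) = t * F x y := by
    intro t x y
    rw [hF, hF, g.map_update_smul, smul_eq_mul]
  have h3 : ∀ x y z, F (x + y) z = F x z + F y z := by
    intro x y z
    rw [hF, hF, hF, Function.update_comm hij, Function.update_comm hij, Function.update_comm hij,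
      g.map_update_add]
  have h4 : ∀ (t : ℝ) x y, F (t • x) y = t * F x y := by
    intro t x y
    rw [hF, hF, Function.update_comm hij, Function.update_comm hij, g.map_update_smul,
      smul_eq_mul]
  have h5 : ∀ x, F x x = 0 := by
    intro x
    rw [hF]
    refine g.map_eq_zero_of_eq _ ?_ hij
    rw [Function.update_of_ne hij, Function.update_self, Function.update_self]
  have h6 : ∀ x y, F y x = - F x y := by
    intro x y
    have h := h5 (x + y)
    rw [h1, h3, h3, h5, h5] at h
    linarith
  rw [← hF, ← hF, sub_eq_add_neg, ← neg_smul, h1, h2, h2, h3, h3, h4, h4, h4, h4, h5, h5, h6 x y]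
  ring

theorem rot_cvec {N p : ℕ} (g : Alt N (2 * p)) (s : ℂ) (hs : ‖s‖ = 1) (c : ℕ → Fin N → ℂ) :
    g (cvec (fun n => s • c n) (2 * p)) = g (cvec c (2 * p)) := by
  have key : ∀ k, k ≤ p → g (cvec (fun n => if n < k then s • c n else c n) (2 * p)) =
      g (cvec c (2 * p)) := by
    intro k
    induction k with
    | zero =>
      intro _
      simp
    | succ k ih =>
      intro hk
      rw [← ih (by omega)]
      obtain ⟨v0, hv0⟩ : ∃ v0, v0 = cvec (fun n => if n < k then s • c n else c n) (2 * p) :=
        ⟨_, rfl⟩
      have i0 : 2 * k < 2 * p := by omega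
      have i1 : 2 * k + 1 < 2 * p := by omega
      have hij : (⟨2 * k, i0⟩ : Fin (2 * p)) ≠ ⟨2 * k + 1, i1⟩ := by
        intro h
        have := congrArg Fin.val h
        simp at this
      have e1 : cvec (fun n => if n < k then s • c n else c n) (2 * p) =
          Function.update (Function.update v0 ⟨2 * k, i0⟩ (c k)) ⟨2 * k + 1, i1⟩
            (Complex.I • c k) := by
        funext m
        by_cases hm1 : m = ⟨2 * k + 1, i1⟩
        · subst hm1
          rw [Function.update_self]
          unfold cvec
          have a1 : (2 * k + 1) % 2 ≠ 0 := by omega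
          have a2 : (2 * k + 1) / 2 = k := by omega
          simp only [a1, a2, if_false, lt_irrefl]
        · rw [Function.update_of_ne hm1]
          by_cases hm0 : m = ⟨2 * k, i0⟩
          · subst hm0
            rw [Function.update_self]
            unfold cvec
            have a1 : (2 * k) % 2 = 0 := by omega
            have a2 : (2 * k) / 2 = k := by omega
            simp only [a1, a2, if_true, lt_irrefl, if_false]
          · rw [Function.update_of_ne hm0, hv0]
      have e2 : cvec (fun n => if n < k + 1 then s • c n else c n) (2 * p) =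
          Function.update (Function.update v0 ⟨2 * k, i0⟩ (s.re • c k + s.im • (Complex.I • c k)))
            ⟨2 * k + 1, i1⟩ (s.re • (Complex.I • c k) - s.im • c k) := by
        funext m
        by_cases hm1 : m = ⟨2 * k + 1, i1⟩
        · subst hm1
          rw [Function.update_self]
          unfold cvec
          have a1 : (2 * k + 1) % 2 ≠ 0 := by omega
          have a2 : (2 * k + 1) / 2 = k := by omega
          have a3 : k < k + 1 := by omega
          simp only [a1, a2, a3, if_false, if_true]
          funext j
          simp only [Pi.smul_apply, Pi.sub_apply, Complex.real_smul, smul_eq_mul]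
          conv_lhs => rw [← Complex.re_add_im s]
          ring_nf
          rw [Complex.I_sq]
          ring
        · rw [Function.update_of_ne hm1]
          by_cases hm0 : m = ⟨2 * k, i0⟩
          · subst hm0
            rw [Function.update_self]
            unfold cvec
            have a1 : (2 * k) % 2 = 0 := by omega
            have a2 : (2 * k) / 2 = k := by omega
            have a3 : k < k + 1 := by omega
            simp only [a1, a2, a3, if_true]
            funext j
            simp only [Pi.smul_apply, Pi.add_apply, Complex.real_smul, smul_eq_mul]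
            conv_lhs => rw [← Complex.re_add_im s]
            ring
          · rw [Function.update_of_ne hm0, hv0]
            unfold cvec
            have hne : (m : ℕ) / 2 ≠ k := by
              intro h
              have h1 : (m : ℕ) ≠ 2 * k := fun h => hm0 (Fin.ext h)
              have h2 : (m : ℕ) ≠ 2 * k + 1 := fun h => hm1 (Fin.ext h)
              omega
            have e3 : ((m : ℕ) / 2 < k + 1) ↔ ((m : ℕ) / 2 < k) := by omega
            simp only [e3]
      rw [e1, e2, pair_rot g v0 _ _ hij]
      have h7 : s.re ^ 2 + s.im ^ 2 = 1 := by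
        have h8 : Complex.normSq s = 1 := by rw [Complex.normSq_eq_norm_sq, hs]; norm_num
        rw [Complex.normSq_apply] at h8
        linarith
      rw [h7, one_mul]
  rw [← key p le_rfl]
  congr 1
  funext m
  unfold cvec
  have h : (m : ℕ) / 2 < p := by omega
  simp only [h, if_true]

/-! ### the volume form on complex tuples -/

theorem vol3_std : vol3 (stdb 3 6) = 1 := by
  have h : ∀ i, r6 (stdb 3 6 i) = Pi.single i 1 := by
    intro i
    rw [← H18.bE_apply]
    show H18.rE (H18.bE i) = _
    unfold H18.bE
    rw [Module.Basis.coe_ofEquivFun]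
    exact H18.rE.apply_symm_apply _
  rw [vol3_apply]
  have h2 : (Matrix.of fun i => r6 (stdb 3 6 i)) = (1 : Matrix (Fin 6) (Fin 6) ℝ) := by
    ext i j
    rw [Matrix.of_apply, h, Matrix.one_apply, Pi.single_apply]
    simp only [eq_comm]
  rw [h2, Matrix.det_one]

theorem vol3_eq (v : Fin 6 → C3) : vol3 v =
    Matrix.det (fun i j : Fin (2 * 3) => if (i : ℕ) % 2 = 0 then (H18.co ((i : ℕ) / 2) (v j)).re
      else (H18.co ((i : ℕ) / 2) (v j)).im) := by
  have h := H18.eqv3 vol3 v
  rw [vol3_std, one_mul, H18.dL_apply] at h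
  exact h

theorem vol3_cvec (w : ℕ → C3) : 0 ≤ vol3 (cvec w 6) := by
  rw [vol3_eq]
  have h := H15.det_cvec (q := 3) H18.co w
  refine le_of_le_of_eq ?_ h.symm
  exact Complex.normSq_nonneg _

theorem vol3_rot (u : ℂ) (hu : ‖u‖ = 1) (v : Fin 6 → C3) : vol3 (fun i => u • v i) = vol3 v := by
  rw [vol3_eq, vol3_eq]
  have h := H15.det_rot (q := 3) H18.co v u
  rw [Complex.normSq_eq_norm_sq, hu] at h
  simp only [one_pow, one_mul] at h
  exact h

/-- the form `v ↦ vol (v, c_0, i c_0, …)` is strongly positive -/
theorem spos_al {p q : ℕ} (hpq : p + q = 3) (h' : 2 * q + 2 * p = 6) (c : ℕ → C3)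
    (al : Alt 3 (2 * q)) (hal : ∀ v, al v = iv h' v (cvec c (2 * p))) : SPos q al := by
  refine H18.eqv q (by omega) al ?_ ?_
  · intro w
    rw [hal, iv_apply]
    have e : app6 h' (cvec w (2 * q)) (cvec c (2 * p)) =
        cvec (fun n => if n < q then w n else c (n - q)) 6 := by
      funext i
      unfold app6
      obtain ⟨j, rfl⟩ : ∃ j, i = Fin.cast h' j := ⟨Fin.cast h'.symm i, by simp⟩
      rw [show Fin.cast h'.symm (Fin.cast h' j) = j by simp]
      refine Fin.addCases (fun a => ?_) (fun a => ?_) j
      · rw [Fin.append_left]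
        unfold cvec
        have h1 : ((Fin.cast h' (Fin.castAdd (2 * p) a) : Fin 6) : ℕ) = a := rfl
        have h2 : (a : ℕ) / 2 < q := by omega
        rw [h1]
        simp only [h2, if_true]
      · rw [Fin.append_right]
        unfold cvec
        have h1 : ((Fin.cast h' (Fin.natAdd (2 * q) a) : Fin 6) : ℕ) = 2 * q + a := rfl
        have h2 : ¬ (2 * q + (a : ℕ)) / 2 < q := by omega
        have h3 : (2 * q + (a : ℕ)) % 2 = (a : ℕ) % 2 := by omega
        have h4 : (2 * q + (a : ℕ)) / 2 - q = (a : ℕ) / 2 := by omega
        rw [h1]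
        simp only [h2, h3, h4, if_false]
    rw [e]
    exact vol3_cvec _
  · intro u hu v
    rw [hal, hal, iv_apply]
    have hu0 : u ≠ 0 := by
      intro h
      rw [h, norm_zero] at hu
      exact zero_ne_one hu
    have hs : ‖u⁻¹‖ = 1 := by rw [norm_inv, hu, inv_one]
    have e : app6 h' (fun j => u • v j) (cvec c (2 * p)) =
        fun i => u • app6 h' v (cvec (fun n => u⁻¹ • c n) (2 * p)) i := by
      funext i
      unfold app6
      obtain ⟨j, rfl⟩ : ∃ j, i = Fin.cast h' j := ⟨Fin.cast h'.symm i, by simp⟩
      rw [show Fin.cast h'.symm (Fin.cast h' j) = j by simp]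
      refine Fin.addCases (fun a => ?_) (fun a => ?_) j
      · rw [Fin.append_left, Fin.append_left]
      · rw [Fin.append_right, Fin.append_right]
        unfold cvec
        split_ifs
        · rw [smul_smul, mul_inv_cancel₀ hu0, one_smul]
        · rw [smul_comm Complex.I u⁻¹, smul_smul, mul_inv_cancel₀ hu0, one_smul]
    rw [e, vol3_rot u hu, ← iv_apply, rot_cvec (iv h' v) u⁻¹ hs c]

/-- module PPA -/
theorem ppa (hdua : DuaStmt) (hcom : ComStmt) : PpaStmt := by
  intro p q hpq b hb c
  have h : 2 * p + 2 * q = 6 := by omega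
  have h' : 2 * q + 2 * p = 6 := by omega
  obtain ⟨⟨D, hD⟩, h2, _⟩ := hdua (2 * q) (2 * p) h'
  let Λ : Alt 3 (2 * p) →L[ℝ] ℝ := ContinuousAlternatingMap.apply ℝ C3 ℝ (cvec c (2 * p))
  have hΛ : ∀ φ, Λ φ = φ (cvec c (2 * p)) := fun φ => rfl
  let al : Alt 3 (2 * q) := Λ.compContinuousAlternatingMap D
  have hal : ∀ v, al v = iv h' v (cvec c (2 * p)) := by
    intro v
    show Λ (D v) = _
    rw [hD, hΛ]
  have h3 : wedge al b (stdb 3 (2 * q + 2 * p)) = b (cvec c (2 * p)) :=
    h2 Λ.toLinearMap al hal b
  have h4 := (hcom (2 * p) (2 * q) h).1 b al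
  have h5 : ((-1 : ℝ)) ^ (2 * p * (2 * q)) = 1 := by
    rw [mul_assoc, pow_mul]
    norm_num
  have h6 := hb al (spos_al hpq h' c al hal)
  rw [h4, h5, one_mul, h3] at h6
  exact h6

end Pool.Agent.SIQ.H59P
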